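import Mathlib

/-!
# A subgroup-closed class with well-behaved maximal normal subgroups violating the congruences

For a prime `p` let `X` be the class of the groups of order dividing `p ^ 3` that are abelian, or
(for odd `p`) of exponent dividing `p`, or (for `p = 2`) have at most one involution. Since `X`
contains all abelian groups of order dividing `p ^ 3`, every maximal normal `X`-subgroup `N` of a
`p`-group `G` is a maximal `X`-subgroup: if `N` does not contain its centralizer, an abelian normal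
subgroup of order `p |N|` contains `N`, and otherwise `|G| ≤ p ^ 3` or `|N| = p ^ 3`. In the central
product of a nonabelian group of order `p ^ 3` (of exponent `p` if `p` is odd) and a cyclic group of
order `p ^ 2`, some `X`-subgroup `H` of order `p ^ 2` is contained in exactly two `X`-subgroups
of order `p ^ 3`.
-/

set_option autoImplicit false

namespace Pool.Agent.Results.MP_b62331_al.AbelianPlusOneType

/-- `H` is a maximal `X`-subgroup of `G`. -/
def IsMaximalX (X : (G : Type) → [Group G] → Prop) {G : Type} [Group G] (H : Subgroup G) : Prop :=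
  X H ∧ ∀ K : Subgroup G, X K → H ≤ K → K = H

/-- `H` is a maximal normal `X`-subgroup of `G`: it is maximal among the normal `X`-subgroups. -/
def IsMaximalNormalX (X : (G : Type) → [Group G] → Prop) {G : Type} [Group G] (H : Subgroup G) :
    Prop :=
  (H.Normal ∧ X H) ∧ ∀ K : Subgroup G, K.Normal → X K → H ≤ K → K = H

/-- The number of `X`-subgroups `K` of `G` with `H < K` and `|K : H| = p`. -/
noncomputable def numAbove (X : (G : Type) → [Group G] → Prop) (p : ℕ) {G : Type} [Group G]
    (H : Subgroup G) : ℕ :=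
  Nat.card {K : Subgroup G // H < K ∧ X K ∧ H.relIndex K = p}

theorem exists_central {p : ℕ} (hp : p.Prime) {Q : Type} [Group Q] [Finite Q] (hQ : IsPGroup p Q)
    (C : Subgroup Q) [C.Normal] (hC : C ≠ ⊥) :
    ∃ q ∈ C, (∀ g : Q, g * q = q * g) ∧ orderOf q = p := by
  haveI := Fact.mk hp
  have hdvd : p ∣ Nat.card C := by
    haveI : Nontrivial C := C.nontrivial_iff_ne_bot.2 hC
    obtain ⟨n, hn0, hn⟩ := (IsPGroup.nontrivial_iff_card (hQ.to_subgroup C)).1 inferInstance
    exact hn.symm ▸ dvd_pow_self _ (ne_of_gt hn0)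
  obtain ⟨b, hb, hb1⟩ := (hQ.of_equiv ConjAct.toConjAct).exists_fixed_point_of_prime_dvd_card_of_fixed_point
    C hdvd (a := 1) (by intro g; exact smul_one g)
  have hb2 : ∀ g : Q, g * (b : Q) = b * g := fun g => by
    have := congrArg Subtype.val (hb (ConjAct.toConjAct g))
    simp only [ConjAct.Subgroup.val_conj_smul, ConjAct.toConjAct_smul] at this
    rwa [mul_inv_eq_iff_eq_mul] at this
  have hb3 : (b : Q) ≠ 1 := fun h => hb1 (Subtype.ext h.symm)
  obtain ⟨k, hk⟩ := (IsPGroup.iff_orderOf.1 hQ) (b : Q)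
  have hk0 : k ≠ 0 := by
    rintro rfl
    rw [pow_zero, orderOf_eq_one_iff] at hk
    exact hb3 hk
  obtain ⟨j, rfl⟩ := Nat.exists_eq_succ_of_ne_zero hk0
  refine ⟨(b : Q) ^ p ^ j, pow_mem b.2 _, fun g => ?_, ?_⟩
  · exact Commute.pow_right (hb2 g) _
  · rw [orderOf_pow' _ (pow_ne_zero _ hp.ne_zero), hk]
    rw [Nat.gcd_eq_right (pow_dvd_pow p (Nat.le_succ j)), pow_succ]
    exact Nat.mul_div_cancel_left _ (pow_pos hp.pos j)

theorem comm_of_card {p a : ℕ} (hp : p.Prime) (ha : a ≤ 2) {N : Type} [Group N]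
    (h : Nat.card N = p ^ a) (x y : N) : x * y = y * x := by
  haveI := Fact.mk hp
  interval_cases a
  · have := (Nat.card_eq_one_iff_unique.1 (by simpa using h)).1
    exact Subsingleton.elim _ _
  · haveI := isCyclic_of_prime_card (p := p) (by simpa using h)
    letI := IsCyclic.commGroup (α := N)
    exact mul_comm x y
  · exact (IsPGroup.isMulCommutative_of_card_eq_prime_sq h).is_comm.comm x y

theorem cond_one {p : ℕ} (hp : p.Prime) (X : (G : Type) → [Group G] → Prop)
    (h1 : ∀ (G : Type) [Group G] [Finite G], X G → Nat.card G ∣ p ^ 3)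
    (h2 : ∀ (G : Type) [Group G] [Finite G], Nat.card G ∣ p ^ 3 → (∀ a b : G, a * b = b * a) → X G)
    (G : Type) [Group G] [Finite G] (hG : IsPGroup p G) (N : Subgroup G) (hN : N.Normal)
    (hmax : ∀ M : Subgroup G, M.Normal → X M → N ≤ M → M = N)
    (K : Subgroup G) (hK : X K) (hNK : N ≤ K) : K = N := by
  haveI := Fact.mk hp
  by_contra hne
  have hlt : N < K := lt_of_le_of_ne hNK (Ne.symm hne)
  have hcK := h1 K hK
  obtain ⟨k, hk, hk'⟩ := (Nat.dvd_prime_pow hp).1 hcK
  have hdN : Nat.card N ∣ p ^ 3 := (Subgroup.card_dvd_of_le hNK).trans hcK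
  obtain ⟨a, ha, ha'⟩ := (Nat.dvd_prime_pow hp).1 hdN
  have hcard : Nat.card N < Nat.card K := by
    refine lt_of_le_of_ne (Subgroup.card_le_of_le hNK) fun h => ?_
    exact hlt.ne (Subgroup.eq_of_le_of_card_ge hNK h.ge)
  have ha2 : a < k := by
    rw [ha', hk'] at hcard
    exact (Nat.pow_lt_pow_iff_right hp.one_lt).1 hcard
  have hcomm : ∀ x ∈ N, ∀ y ∈ N, x * y = y * x := fun x hx y hy => by
    have := comm_of_card hp (by omega : a ≤ 2) ha' (⟨x, hx⟩ : N) ⟨y, hy⟩
    exact congrArg Subtype.val this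
  by_cases hC : Subgroup.centralizer (N : Set G) ≤ N
  · -- the self-centralizing case
    have hNbot : N ≠ ⊥ := by
      rintro rfl
      apply hne
      rw [eq_bot_iff]
      refine le_trans le_top (le_trans ?_ hC)
      intro g _
      rw [Subgroup.mem_centralizer_iff]
      rintro h rfl
      simp
    obtain ⟨z, hzN, hzc, hzo⟩ := exists_central hp hG N hNbot
    have hnc : ∃ n ∈ N, ∃ g : G, g * n ≠ n * g := by
      by_contra hcon
      push_neg at hcon
      apply hne
      refine le_antisymm ?_ hNK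
      refine le_trans le_top (le_trans ?_ hC)
      intro g _
      rw [Subgroup.mem_centralizer_iff]
      intro h hh
      exact (hcon h hh g).symm
    obtain ⟨n, hn, g0, hg0⟩ := hnc
    -- every element commuting with n centralizes N
    have hkey : ∀ g : G, g * n = n * g → g ∈ N := by
      intro g hg
      apply hC
      rw [Subgroup.mem_centralizer_iff]
      let D : Subgroup G := N ⊓ Subgroup.centralizer {g}
      have hzD : z ∈ D := by
        refine Subgroup.mem_inf.2 ⟨hzN, ?_⟩
        rw [Subgroup.mem_centralizer_iff]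
        rintro h rfl
        exact hzc h
      have hnD : n ∈ D := by
        refine Subgroup.mem_inf.2 ⟨hn, ?_⟩
        rw [Subgroup.mem_centralizer_iff]
        rintro h rfl
        exact hg
      have hD1 : Subgroup.zpowers z < D := by
        refine lt_of_le_of_ne (by rwa [Subgroup.zpowers_le]) fun h => ?_
        rw [← h] at hnD
        obtain ⟨m, rfl⟩ := Subgroup.mem_zpowers_iff.1 hnD
        exact hg0 (Commute.zpow_right (hzc g0) m)
      have hD2 : p < Nat.card D := by
        rw [← hzo, ← Nat.card_zpowers]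
        refine lt_of_le_of_ne (Subgroup.card_le_of_le hD1.le) fun h => ?_
        exact hD1.ne (Subgroup.eq_of_le_of_card_ge hD1.le h.ge)
      have hD3 : D = N := by
        apply Subgroup.eq_of_le_of_card_ge inf_le_left
        obtain ⟨d, hd, hd'⟩ := (Nat.dvd_prime_pow hp).1
          ((Subgroup.card_dvd_of_le (inf_le_left : D ≤ N)).trans hdN)
        rw [hd'] at hD2 ⊢
        rw [ha']
        have : 1 < d := by
          by_contra hcon
          have : p ^ d ≤ p ^ 1 := Nat.pow_le_pow_right hp.pos (by omega)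
          rw [pow_one] at this
          omega
        exact Nat.pow_le_pow_right hp.pos (by omega)
      intro h hh
      have : h ∈ D := by rw [hD3]; exact hh
      have h3 := (Subgroup.mem_centralizer_iff.1 this.2) g rfl
      exact h3.symm
    -- the conjugacy class of n has fewer than |N| elements
    obtain ⟨j, hj⟩ := (hG.of_equiv ConjAct.toConjAct).card_orbit n
    have hsub : MulAction.orbit (ConjAct G) n ⊆ (N : Set G) \ {1} := by
      rintro _ ⟨g, rfl⟩
      change ConjAct.ofConjAct g * n * (ConjAct.ofConjAct g)⁻¹ ∈ _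
      refine ⟨hN.conj_mem n hn _, fun h => ?_⟩
      rw [Set.mem_singleton_iff, mul_inv_eq_one] at h
      have h4 : n = 1 := by
        have := mul_eq_left.1 h
        exact this
      exact hg0 (by rw [h4]; simp)
    have hj2 : j < a := by
      have h5 : (MulAction.orbit (ConjAct G) n).ncard < (N : Set G).ncard := by
        refine Set.ncard_lt_ncard ⟨fun x hx => (hsub hx).1, fun h => ?_⟩ (Set.toFinite _)
        exact (hsub (h (one_mem N))).2 rfl
      rw [← Nat.card_coe_set_eq, ← Nat.card_coe_set_eq, hj] at h5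
      have h6 : Nat.card (N : Set G) = p ^ a := ha'
      rw [h6] at h5
      exact (Nat.pow_lt_pow_iff_right hp.one_lt).1 h5
    have hS : Nat.card (MulAction.stabilizer (ConjAct G) n) ≤ Nat.card N := by
      refine Nat.card_le_card_of_injective
        (fun s => (⟨ConjAct.ofConjAct (s : ConjAct G), hkey _ ?_⟩ : N)) ?_
      · have := s.2
        rw [MulAction.mem_stabilizer_iff] at this
        change ConjAct.ofConjAct (s : ConjAct G) * n * (ConjAct.ofConjAct (s : ConjAct G))⁻¹ = n
          at this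
        rwa [mul_inv_eq_iff_eq_mul] at this
      · intro s t hst
        apply Subtype.ext
        exact congrArg (fun x : N => ConjAct.toConjAct (x : G)) hst
    have hGc : Nat.card G ≤ p ^ 3 := by
      have h7 := (MulAction.stabilizer (ConjAct G) n).card_mul_index
      rw [MulAction.index_stabilizer, ← Nat.card_coe_set_eq, hj] at h7
      have h8 : Nat.card (ConjAct G) = Nat.card G := rfl
      rw [← h8, ← h7]
      calc _ ≤ p ^ a * p ^ j := Nat.mul_le_mul_right _ (by rw [← ha']; exact hS)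
        _ = p ^ (a + j) := (pow_add p a j).symm
        _ ≤ p ^ 3 := Nat.pow_le_pow_right hp.pos (by omega)
    have ha1 : a = 2 := by
      have h11 : Subgroup.zpowers z < N := by
        refine lt_of_le_of_ne (by rwa [Subgroup.zpowers_le]) fun h => ?_
        rw [← h] at hn
        obtain ⟨m, rfl⟩ := Subgroup.mem_zpowers_iff.1 hn
        exact hg0 (Commute.zpow_right (hzc g0) m)
      have h12 : p < p ^ a := by
        rw [← ha']
        conv_lhs => rw [← hzo, ← Nat.card_zpowers]
        refine lt_of_le_of_ne (Subgroup.card_le_of_le h11.le) fun h => ?_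
        exact h11.ne (Subgroup.eq_of_le_of_card_ge h11.le h.ge)
      have h13 : 1 < a := by
        by_contra hcon
        have : p ^ a ≤ p ^ 1 := Nat.pow_le_pow_right hp.pos (by omega)
        rw [pow_one] at this
        omega
      omega
    have hKtop : K = ⊤ := by
      apply Subgroup.eq_top_of_card_eq
      refine le_antisymm (Subgroup.card_le_card_group K) (hGc.trans ?_)
      rw [hk']
      exact Nat.pow_le_pow_right hp.pos (by omega)
    exact hne (hmax K (by rw [hKtop]; infer_instance) hK hNK)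
  · obtain ⟨c0, hc0, hc0N⟩ := Set.not_subset.1 hC
    let π := QuotientGroup.mk' N
    have hQ : IsPGroup p (G ⧸ N) := hG.to_quotient N
    let C := (Subgroup.centralizer (N : Set G)).map π
    haveI : (Subgroup.centralizer (N : Set G)).Normal := inferInstance
    haveI : C.Normal := Subgroup.Normal.map inferInstance π (QuotientGroup.mk'_surjective N)
    have hCb : C ≠ ⊥ := by
      intro h
      have : π c0 ∈ C := Subgroup.mem_map_of_mem π hc0
      rw [h, Subgroup.mem_bot] at this
      exact hc0N ((QuotientGroup.eq_one_iff c0).1 this)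
    obtain ⟨q, hqC, hqc, hqo⟩ := exists_central hp hQ C hCb
    obtain ⟨c, hc, hcq⟩ := Subgroup.mem_map.1 hqC
    let M := (Subgroup.zpowers q).comap π
    have hMn : M.Normal := by
      have : (Subgroup.zpowers q).Normal := by
        refine ⟨fun n hn g => ?_⟩
        obtain ⟨m, rfl⟩ := Subgroup.mem_zpowers_iff.1 hn
        have h9 : g * q ^ m = q ^ m * g := Commute.zpow_right (hqc g) m
        rw [h9, mul_inv_cancel_right]
        exact hn
      exact this.comap π
    have hNM : N ≤ M := fun n hn => by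
      change π n ∈ Subgroup.zpowers q
      have : π n = 1 := (QuotientGroup.eq_one_iff n).2 hn
      rw [this]; exact one_mem _
    have hMc : Nat.card M = p ^ (a + 1) := by
      have h10 : M.index = (Subgroup.zpowers q).index :=
        Subgroup.index_comap_of_surjective _ (QuotientGroup.mk'_surjective N)
      have h14 := M.card_mul_index
      have h15 := (Subgroup.zpowers q).card_mul_index
      have h16 := N.card_mul_index
      have h17 : Nat.card (G ⧸ N) = N.index := rfl
      rw [Nat.card_zpowers, hqo, h17] at h15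
      rw [h10, ← h16, ← h15, ha', ← mul_assoc, ← pow_succ] at h14
      exact Nat.eq_of_mul_eq_mul_right (Nat.pos_of_ne_zero Subgroup.index_ne_zero_of_finite) h14
    have hform : ∀ x ∈ M, ∃ m : ℤ, x * (c ^ m)⁻¹ ∈ N := fun x hx => by
      obtain ⟨m, hm⟩ := Subgroup.mem_zpowers_iff.1 (show π x ∈ Subgroup.zpowers q from hx)
      refine ⟨m, (QuotientGroup.eq_one_iff _).1 ?_⟩
      change π (x * (c ^ m)⁻¹) = 1
      rw [map_mul, map_inv, map_zpow, hcq, hm, mul_inv_cancel]
    have hMcomm : ∀ x ∈ M, ∀ y ∈ M, x * y = y * x := fun x hx y hy => by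
      obtain ⟨m, hm⟩ := hform x hx
      obtain ⟨l, hl⟩ := hform y hy
      have e1 : x = (x * (c ^ m)⁻¹) * c ^ m := by group
      have e2 : y = (y * (c ^ l)⁻¹) * c ^ l := by group
      have c1 : Commute (x * (c ^ m)⁻¹) (y * (c ^ l)⁻¹) := hcomm _ hm _ hl
      have c2 : ∀ n ∈ N, ∀ i : ℤ, Commute n (c ^ i) := fun n hn i =>
        Commute.zpow_right ((Subgroup.mem_centralizer_iff.1 hc) n hn) i
      have c3 : Commute (c ^ m) (c ^ l) := (Commute.refl c).zpow_zpow m l
      rw [e1, e2]
      exact ((c1.mul_right (c2 _ hm l)).mul_left (((c2 _ hl m).symm).mul_right c3)).eq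
    have hMN := hmax M hMn (h2 M (by rw [hMc]; exact pow_dvd_pow p (by omega))
      (fun x y => Subtype.ext (hMcomm x x.2 y y.2))) hNM
    rw [hMN, ha'] at hMc
    have := (Nat.pow_right_injective hp.two_le) hMc
    omega

/-- Multiplication by `p`, from the integers mod `p` to the integers mod `p ^ 2`. -/
def iota (p : ℕ) : ZMod p →+ ZMod (p ^ 2) :=
  ZMod.lift p ⟨zmultiplesHom (ZMod (p ^ 2)) (p : ZMod (p ^ 2)), by
    have : ((p ^ 2 : ℕ) : ZMod (p ^ 2)) = 0 := ZMod.natCast_self _
    simp only [zmultiplesHom_apply, zsmul_eq_mul, Int.cast_natCast]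
    rw [← this]; push_cast; ring⟩

theorem iota_natCast (p n : ℕ) : iota p (n : ZMod p) = n * p := by
  have := ZMod.lift_coe p (A := ZMod (p ^ 2)) ⟨zmultiplesHom (ZMod (p ^ 2)) (p : ZMod (p ^ 2)), by
    have : ((p ^ 2 : ℕ) : ZMod (p ^ 2)) = 0 := ZMod.natCast_self _
    simp only [zmultiplesHom_apply, zsmul_eq_mul, Int.cast_natCast]
    rw [← this]; push_cast; ring⟩ (n : ℤ)
  simpa [iota] using this

theorem iota_inj {p : ℕ} (hp : p.Prime) : Function.Injective (iota p) := by
  haveI := Fact.mk hp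
  rw [injective_iff_map_eq_zero]
  intro x hx
  rw [← ZMod.natCast_zmod_val x, iota_natCast, ← Nat.cast_mul, ZMod.natCast_eq_zero_iff, pow_two] at hx
  have := Nat.dvd_of_mul_dvd_mul_right hp.pos hx
  rw [← ZMod.natCast_zmod_val x, ZMod.natCast_eq_zero_iff]
  exact this

theorem mem_range_iota {p : ℕ} (hp : p.Prime) (w : ZMod (p ^ 2)) (h : (p : ZMod (p ^ 2)) * w = 0) :
    ∃ t, w = iota p t := by
  haveI : NeZero (p ^ 2) := ⟨pow_ne_zero 2 hp.ne_zero⟩
  rw [← ZMod.natCast_zmod_val w, ← Nat.cast_mul, ZMod.natCast_eq_zero_iff] at h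
  obtain ⟨t, ht'⟩ := h
  have ht : w.val = p * t := Nat.eq_of_mul_eq_mul_left hp.pos (by rw [ht']; ring)
  refine ⟨(t : ZMod p), ?_⟩
  rw [iota_natCast, ← ZMod.natCast_zmod_val w, ht]
  push_cast; ring

theorem p_mul_iota {p : ℕ} (x : ZMod p) : (p : ZMod (p ^ 2)) * iota p x = 0 := by
  rw [← nsmul_eq_mul, ← map_nsmul, nsmul_eq_mul, ZMod.natCast_self, zero_mul, map_zero]

/-- The central product of the group of order `p ^ 3` and exponent `p` (for odd `p`) and a cyclic
group of order `p ^ 2`. -/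
@[ext] structure P (p : ℕ) where
  /-- first coordinate -/
  a : ZMod p
  /-- second coordinate -/
  b : ZMod p
  /-- central coordinate -/
  w : ZMod (p ^ 2)
deriving DecidableEq

namespace P

variable {p : ℕ}

instance : Mul (P p) := ⟨fun x y => ⟨x.a + y.a, x.b + y.b, x.w + y.w + iota p (x.a * y.b)⟩⟩
instance : One (P p) := ⟨⟨0, 0, 0⟩⟩
instance : Inv (P p) := ⟨fun x => ⟨-x.a, -x.b, -x.w + iota p (x.a * x.b)⟩⟩

@[simp] theorem mul_a (x y : P p) : (x * y).a = x.a + y.a := rfl
@[simp] theorem mul_b (x y : P p) : (x * y).b = x.b + y.b := rfl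
@[simp] theorem mul_w (x y : P p) : (x * y).w = x.w + y.w + iota p (x.a * y.b) := rfl
@[simp] theorem one_a : (1 : P p).a = 0 := rfl
@[simp] theorem one_b : (1 : P p).b = 0 := rfl
@[simp] theorem one_w : (1 : P p).w = 0 := rfl
@[simp] theorem inv_a (x : P p) : (x⁻¹).a = -x.a := rfl
@[simp] theorem inv_b (x : P p) : (x⁻¹).b = -x.b := rfl
@[simp] theorem inv_w (x : P p) : (x⁻¹).w = -x.w + iota p (x.a * x.b) := rfl

instance : Group (P p) :=
  Group.ofLeftAxioms
    (fun x y z => by
      ext
      · simp [add_assoc]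
      · simp [add_assoc]
      · simp only [mul_w, mul_a, mul_b, add_mul, mul_add, map_add]; ring)
    (fun x => by ext <;> simp)
    (fun x => by
      ext
      · simp
      · simp
      · simp only [mul_w, inv_w, inv_a, one_w, neg_mul, map_neg]; ring)

theorem pow_eq (x : P p) (n : ℕ) :
    x ^ n = ⟨n * x.a, n * x.b, n * x.w + (n.choose 2 : ℕ) * iota p (x.a * x.b)⟩ := by
  induction n with
  | zero => ext <;> simp
  | succ n ih =>
    rw [pow_succ, ih]
    ext
    · simp; ring
    · simp; ring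
    · have : (n + 1).choose 2 = n.choose 1 + n.choose 2 := Nat.choose_succ_succ n 1
      have h2 : iota p ((n : ZMod p) * x.a * x.b) = n * iota p (x.a * x.b) := by
        rw [mul_assoc, ← nsmul_eq_mul, map_nsmul, nsmul_eq_mul]
      simp only [mul_w, this, Nat.choose_one_right, h2]
      push_cast
      ring

/-- `P p` as a product. -/
def equivProd (p : ℕ) : P p ≃ ZMod p × ZMod p × ZMod (p ^ 2) where
  toFun x := (x.a, x.b, x.w)
  invFun x := ⟨x.1, x.2.1, x.2.2⟩
  left_inv _ := rfl
  right_inv _ := rfl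

theorem card (p : ℕ) : Nat.card (P p) = p ^ 4 := by
  rw [Nat.card_congr (equivProd p), Nat.card_prod, Nat.card_prod, Nat.card_zmod, Nat.card_zmod]
  ring

/-- The subgroup `H` of order `p ^ 2`. -/
def H (p : ℕ) : Subgroup (P p) where
  carrier := {x | x.a = 0 ∧ ∃ t, x.w = iota p t}
  mul_mem' := by
    rintro x y ⟨hx, t, ht⟩ ⟨hy, s, hs⟩
    refine ⟨by simp [hx, hy], t + s, ?_⟩
    simp [hx, ht, hs]
  one_mem' := ⟨rfl, 0, by simp⟩
  inv_mem' := by
    rintro x ⟨hx, t, ht⟩
    exact ⟨by simp [hx], -t, by simp [hx, ht]⟩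

/-- The abelian subgroup of order `p ^ 3` containing `H`. -/
def K1 (p : ℕ) : Subgroup (P p) where
  carrier := {x | x.a = 0}
  mul_mem' := by
    intro x y hx hy
    simp only [Set.mem_setOf_eq] at *
    simp [hx, hy]
  one_mem' := rfl
  inv_mem' := by
    intro x hx
    simp only [Set.mem_setOf_eq] at *
    simp [hx]

/-- The subgroup of order `p ^ 3` and exponent `p` containing `H`. -/
def K2 (p : ℕ) : Subgroup (P p) where
  carrier := {x | ∃ t, x.w = iota p t}
  mul_mem' := by
    rintro x y ⟨t, ht⟩ ⟨s, hs⟩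
    exact ⟨t + s + x.a * y.b, by simp [ht, hs]⟩
  one_mem' := ⟨0, by simp⟩
  inv_mem' := by
    rintro x ⟨t, ht⟩
    exact ⟨-t + x.a * x.b, by simp [ht]⟩

theorem mem_H {x : P p} : x ∈ H p ↔ x.a = 0 ∧ ∃ t, x.w = iota p t := Iff.rfl
theorem mem_K1 {x : P p} : x ∈ K1 p ↔ x.a = 0 := Iff.rfl
theorem mem_K2 {x : P p} : x ∈ K2 p ↔ ∃ t, x.w = iota p t := Iff.rfl

theorem card_H (hp : p.Prime) : Nat.card (H p) = p ^ 2 := by
  have : Nat.card (H p) = Nat.card (ZMod p × ZMod p) := by
    symm
    refine Nat.card_eq_of_bijective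
      (fun x => (⟨⟨0, x.1, iota p x.2⟩, rfl, x.2, rfl⟩ : H p)) ⟨?_, ?_⟩
    · rintro ⟨x, y⟩ ⟨x', y'⟩ h
      have h1 := congrArg Subtype.val h
      simp only [P.mk.injEq, true_and] at h1
      exact Prod.ext h1.1 (iota_inj hp h1.2)
    · rintro ⟨⟨a, b, w⟩, h1, t, h2⟩
      refine ⟨(b, t), Subtype.ext ?_⟩
      simp only at h1 h2
      ext
      · exact h1.symm
      · rfl
      · exact h2.symm
  rw [this, Nat.card_prod, Nat.card_zmod]; ring

theorem card_K1 : Nat.card (K1 p) = p ^ 3 := by
  have : Nat.card (K1 p) = Nat.card (ZMod p × ZMod (p ^ 2)) := by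
    symm
    refine Nat.card_eq_of_bijective
      (fun x => (⟨⟨0, x.1, x.2⟩, rfl⟩ : K1 p)) ⟨?_, ?_⟩
    · rintro ⟨x, y⟩ ⟨x', y'⟩ h
      have h1 := congrArg Subtype.val h
      simp only [P.mk.injEq, true_and] at h1
      exact Prod.ext h1.1 h1.2
    · rintro ⟨⟨a, b, w⟩, h1⟩
      refine ⟨(b, w), Subtype.ext ?_⟩
      ext
      · exact h1.symm
      · rfl
      · rfl
  rw [this, Nat.card_prod, Nat.card_zmod, Nat.card_zmod]; ring

theorem card_K2 (hp : p.Prime) : Nat.card (K2 p) = p ^ 3 := by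
  have : Nat.card (K2 p) = Nat.card (ZMod p × ZMod p × ZMod p) := by
    symm
    refine Nat.card_eq_of_bijective
      (fun x => (⟨⟨x.1, x.2.1, iota p x.2.2⟩, x.2.2, rfl⟩ : K2 p)) ⟨?_, ?_⟩
    · rintro ⟨x, y, z⟩ ⟨x', y', z'⟩ h
      have h1 := congrArg Subtype.val h
      simp only [P.mk.injEq] at h1
      exact Prod.ext h1.1 (Prod.ext h1.2.1 (iota_inj hp h1.2.2))
    · rintro ⟨⟨a, b, w⟩, t, h2⟩
      refine ⟨(a, b, t), Subtype.ext ?_⟩
      ext
      · rfl
      · rfl
      · exact h2.symm
  rw [this, Nat.card_prod, Nat.card_prod, Nat.card_zmod]; ring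

theorem H_le_K1 : H p ≤ K1 p := fun _ hx => hx.1
theorem H_le_K2 : H p ≤ K2 p := fun _ hx => hx.2

instance [NeZero p] : Finite (P p) := by
  haveI : NeZero (p ^ 2) := ⟨pow_ne_zero 2 (NeZero.ne p)⟩
  exact Finite.of_equiv _ (equivProd p).symm

end P

theorem relIndex_eq_of_card {G : Type} [Group G] [Finite G] {H K : Subgroup G} (h : H ≤ K) {n m : ℕ}
    (hH : Nat.card H = n) (hK : Nat.card K = n * m) : H.relIndex K = m := by
  have h1 := Subgroup.relIndex_mul_relIndex ⊥ H K bot_le h
  rw [Subgroup.relIndex_bot_left, Subgroup.relIndex_bot_left, hH, hK] at h1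
  have : 0 < n := hH ▸ Nat.card_pos
  exact Nat.eq_of_mul_eq_mul_left this h1

theorem eq_of_relIndex {G : Type} [Group G] [Finite G] {H L K : Subgroup G} {p : ℕ} (hp : p ≠ 0)
    (h1 : H ≤ L) (h2 : L ≤ K) (hL : H.relIndex L = p) (hK : H.relIndex K = p) : K = L := by
  have h3 := Subgroup.relIndex_mul_relIndex H L K h1 h2
  rw [hL, hK] at h3
  have h4 : L.relIndex K = 1 := by
    have : p * L.relIndex K = p * 1 := by rw [h3, mul_one]
    exact Nat.eq_of_mul_eq_mul_left (Nat.pos_of_ne_zero hp) this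
  exact le_antisymm (Subgroup.relIndex_eq_one.1 h4) h2

/-- The class of groups used for odd `p`. -/
def XOdd (p : ℕ) (G : Type) [Group G] : Prop :=
  Nat.card G ∣ p ^ 3 ∧ ((∀ a b : G, a * b = b * a) ∨ ∀ a : G, a ^ p = 1)

theorem XOdd_iff {p : ℕ} (hp : p.Prime) (hp2 : p ≠ 2) (K : Subgroup (P p)) :
    (P.H p < K ∧ XOdd p K ∧ (P.H p).relIndex K = p) ↔ (K = P.K1 p ∨ K = P.K2 p) := by
  haveI := Fact.mk hp
  haveI : NeZero p := ⟨hp.ne_zero⟩
  have hi1 : (P.H p).relIndex (P.K1 p) = p :=
    relIndex_eq_of_card P.H_le_K1 (P.card_H hp) (by rw [P.card_K1]; ring)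
  have hi2 : (P.H p).relIndex (P.K2 p) = p :=
    relIndex_eq_of_card P.H_le_K2 (P.card_H hp) (by rw [P.card_K2 hp]; ring)
  have hlt : ∀ L : Subgroup (P p), P.H p ≤ L → (P.H p).relIndex L = p → P.H p < L := by
    intro L h1 h2
    refine lt_of_le_of_ne h1 fun h => ?_
    rw [h, Subgroup.relIndex_self] at h2
    exact hp.one_lt.ne h2
  constructor
  · rintro ⟨h1, ⟨hX1, hX2⟩, h3⟩
    obtain ⟨x, hx, hxH⟩ := Set.exists_of_ssubset h1
    by_cases hxa : x.a = 0
    · left
      refine eq_of_relIndex hp.ne_zero P.H_le_K1 ?_ hi1 h3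
      -- the central element
      have hz : (⟨0, 0, x.w⟩ : P p) ∈ K := by
        have h4 : (⟨0, x.b, 0⟩ : P p) ∈ K := h1.le ⟨rfl, 0, by simp⟩
        have h5 := mul_mem hx (inv_mem h4)
        convert h5 using 1
        ext <;> simp [hxa]
      have hw : ∀ t, x.w ≠ iota p t := fun t ht => hxH ⟨hxa, t, ht⟩
      haveI : NeZero (p ^ 2) := ⟨pow_ne_zero 2 hp.ne_zero⟩
      have hcop : Nat.Coprime x.w.val (p ^ 2) := by
        refine Nat.Coprime.pow_right 2 ?_
        rw [Nat.coprime_comm, hp.coprime_iff_not_dvd]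
        rintro ⟨t, ht⟩
        apply hw (t : ZMod p)
        rw [iota_natCast, ← ZMod.natCast_zmod_val x.w, ht]
        push_cast; ring
      have hu : ∃ n : ℕ, (n : ZMod (p ^ 2)) * x.w = 1 := by
        refine ⟨(x.w⁻¹).val, ?_⟩
        rw [ZMod.natCast_zmod_val, mul_comm]
        have := ZMod.coe_mul_inv_eq_one x.w.val hcop
        rwa [ZMod.natCast_zmod_val] at this
      obtain ⟨n, hn⟩ := hu
      intro y hy
      have h6 : (⟨0, y.b, 0⟩ : P p) ∈ K := h1.le ⟨rfl, 0, by simp⟩
      have h7 := mul_mem h6 (pow_mem hz (n * y.w.val))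
      convert h7 using 1
      rw [P.pow_eq]
      have hy' : y.a = 0 := hy
      ext
      · simp [hy']
      · simp
      · simp only [P.mul_w, mul_zero, map_zero, add_zero, zero_mul, zero_add, Nat.cast_mul,
          ZMod.natCast_zmod_val]
        rw [mul_right_comm, hn, one_mul]
    · right
      refine eq_of_relIndex hp.ne_zero P.H_le_K2 ?_ hi2 h3
      -- `K` is not abelian, hence of exponent `p`
      have hb : (⟨0, 1, 0⟩ : P p) ∈ K := h1.le ⟨rfl, 0, by simp⟩
      have hnc : ¬ ∀ a b : K, a * b = b * a := by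
        intro h
        have h4 := congrArg (fun y : K => (y : P p).w) (h ⟨x, hx⟩ ⟨_, hb⟩)
        simp only [Subgroup.coe_mul, P.mul_w, mul_one, zero_mul, map_zero, add_zero, zero_add] at h4
        have h5 : iota p x.a = 0 := by simpa using h4
        exact hxa (iota_inj hp (by rw [h5, map_zero]))
      have hexp := hX2.resolve_left hnc
      have hx1 : x ^ p = 1 := congrArg Subtype.val (hexp ⟨x, hx⟩)
      have hxK2 : x ∈ P.K2 p := by
        rw [P.pow_eq] at hx1
        have h4 := congrArg P.w hx1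
        have h5 : p ∣ p.choose 2 :=
          hp.dvd_choose_self two_ne_zero (lt_of_le_of_ne hp.two_le (Ne.symm hp2))
        obtain ⟨c, hc⟩ := h5
        simp only [P.one_w] at h4
        rw [hc, mul_comm p c, Nat.cast_mul, mul_assoc, p_mul_iota, mul_zero, add_zero] at h4
        exact mem_range_iota hp x.w h4
      intro y hy
      have hn : (((y.a / x.a).val : ℕ) : ZMod p) * x.a = y.a := by
        rw [ZMod.natCast_zmod_val, div_mul_cancel₀ _ hxa]
      have h6 : x ^ (y.a / x.a).val ∈ K := pow_mem hx _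
      have h7 : y * (x ^ (y.a / x.a).val)⁻¹ ∈ P.H p := by
        refine ⟨?_, ?_⟩
        · have : (x ^ (y.a / x.a).val).a = y.a := by rw [P.pow_eq]; exact hn
          rw [P.mul_a, P.inv_a, this, add_neg_cancel]
        · exact P.mem_K2.1 (mul_mem hy (inv_mem (pow_mem hxK2 _)))
      have h8 := mul_mem (h1.le h7) h6
      rwa [inv_mul_cancel_right] at h8
  · rintro (rfl | rfl)
    · refine ⟨hlt _ P.H_le_K1 hi1, ⟨by rw [P.card_K1], Or.inl ?_⟩, hi1⟩
      rintro ⟨a, ha⟩ ⟨b, hb⟩
      have ha' : a.a = 0 := ha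
      have hb' : b.a = 0 := hb
      apply Subtype.ext
      ext
      · simp [ha', hb']
      · simp [add_comm]
      · simp [ha', hb', add_comm]
    · refine ⟨hlt _ P.H_le_K2 hi2, ⟨by rw [P.card_K2 hp], Or.inr ?_⟩, hi2⟩
      rintro ⟨x, t, ht⟩
      apply Subtype.ext
      rw [Subgroup.coe_pow, P.pow_eq]
      have h1 : p ∣ p.choose 2 :=
        hp.dvd_choose_self two_ne_zero (lt_of_le_of_ne hp.two_le (Ne.symm hp2))
      obtain ⟨c, hc⟩ := h1
      ext
      · simp
      · simp
      · change (p : ZMod (p ^ 2)) * x.w + (p.choose 2 : ℕ) * iota p (x.a * x.b) = 0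
        rw [ht, p_mul_iota, hc, mul_comm p c, Nat.cast_mul, mul_assoc, p_mul_iota]
        simp

theorem K1_ne_K2 {p : ℕ} (hp : p.Prime) : P.K1 p ≠ P.K2 p := by
  haveI := Fact.mk hp
  intro h
  have h1 : (⟨1, 0, 0⟩ : P p) ∈ P.K2 p := ⟨0, by simp⟩
  rw [← h] at h1
  exact one_ne_zero (show (1 : ZMod p) = 0 from h1)

theorem odd_count {p : ℕ} (hp : p.Prime) (hp2 : p ≠ 2) :
    Nat.card {K : Subgroup (P p) // P.H p < K ∧ XOdd p K ∧ (P.H p).relIndex K = p} = 2 := by
  have h1 : {K : Subgroup (P p) | P.H p < K ∧ XOdd p K ∧ (P.H p).relIndex K = p} =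
      {P.K1 p, P.K2 p} := by
    ext K
    rw [Set.mem_setOf_eq, XOdd_iff hp hp2]
    simp
  have h2 : Nat.card ({K : Subgroup (P p) | P.H p < K ∧ XOdd p K ∧ (P.H p).relIndex K = p}) = 2 := by
    rw [h1, Nat.card_coe_set_eq, Set.ncard_pair (K1_ne_K2 hp)]
  exact h2

theorem H_mem_X {p : ℕ} (hp : p.Prime) : XOdd p (P.H p) := by
  refine ⟨by rw [P.card_H hp]; exact pow_dvd_pow p (by norm_num), Or.inl ?_⟩
  rintro ⟨a, ha, _⟩ ⟨b, hb, _⟩
  apply Subtype.ext
  ext
  · simp [ha, hb]
  · simp [add_comm]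
  · simp [ha, hb, add_comm]


section Two

instance : Fintype (P 2) := Fintype.ofEquiv _ (P.equivProd 2).symm

/-- Reduction of an integer mod `4` to an integer mod `2`. -/
def par : ZMod (2 ^ 2) →+ ZMod 2 :=
  (ZMod.castHom (by norm_num : 2 ∣ 2 ^ 2) (ZMod 2)).toAddMonoidHom

theorem par_iota : ∀ t, par (iota 2 t) = 0 := by decide

/-- A cyclic subgroup of order `4`. -/
def H' : Subgroup (P 2) where
  carrier := {x | x.a = x.b ∧ par x.w = 0}
  mul_mem' := by
    rintro x y ⟨hx, hx'⟩ ⟨hy, hy'⟩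
    exact ⟨by simp [hx, hy], by simp [hx', hy']; exact par_iota _⟩
  one_mem' := ⟨rfl, by simp⟩
  inv_mem' := by
    rintro x ⟨hx, hx'⟩
    exact ⟨by simp [hx], by simp [hx']; exact par_iota _⟩

/-- The abelian subgroup of order `8` containing `H'`. -/
def K1' : Subgroup (P 2) where
  carrier := {x | x.a = x.b}
  mul_mem' := by
    intro x y hx hy
    simp only [Set.mem_setOf_eq] at *
    simp [hx, hy]
  one_mem' := rfl
  inv_mem' := by
    intro x hx
    simp only [Set.mem_setOf_eq] at *
    simp [hx]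

/-- The quaternion subgroup containing `H'`. -/
def K2' : Subgroup (P 2) where
  carrier := {x | par x.w = x.a + x.b}
  mul_mem' := by
    intro x y hx hy
    simp only [Set.mem_setOf_eq] at *
    simp only [P.mul_w, P.mul_a, P.mul_b, map_add, hx, hy, par_iota]
    ring
  one_mem' := by simp
  inv_mem' := by
    intro x hx
    simp only [Set.mem_setOf_eq] at *
    simp only [P.inv_w, P.inv_a, P.inv_b, map_add, map_neg, hx, par_iota]
    ring

instance (x : P 2) : Decidable (x ∈ H') := inferInstanceAs (Decidable (x.a = x.b ∧ par x.w = 0))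
instance (x : P 2) : Decidable (x ∈ K1') := inferInstanceAs (Decidable (x.a = x.b))
instance (x : P 2) : Decidable (x ∈ K2') := inferInstanceAs (Decidable (par x.w = x.a + x.b))

theorem card_H' : Nat.card H' = 4 := by
  rw [Nat.card_eq_fintype_card]
  decide

theorem card_K1' : Nat.card K1' = 8 := by
  rw [Nat.card_eq_fintype_card]
  decide

theorem card_K2' : Nat.card K2' = 8 := by
  rw [Nat.card_eq_fintype_card]
  decide

theorem H'_le_K1' : H' ≤ K1' := fun _ hx => hx.1
theorem H'_le_K2' : H' ≤ K2' := fun x hx => by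
  have h1 : x.a = x.b := hx.1
  have h2 : par x.w = 0 := hx.2
  change par x.w = x.a + x.b
  rw [h1, h2, ← two_mul]
  have : (2 : ZMod 2) = 0 := rfl
  rw [this, zero_mul]

/-- The class of groups used for `p = 2`. -/
def XTwo (G : Type) [Group G] : Prop :=
  Nat.card G ∣ 2 ^ 3 ∧
    ((∀ a b : G, a * b = b * a) ∨ ∀ a b : G, a ^ 2 = 1 → b ^ 2 = 1 → a = 1 ∨ b = 1 ∨ a = b)

theorem two_cover : ∀ x : P 2, x ∉ H' → (x ∈ K1' ∨ x ∈ K2' ∨ x ^ 2 = 1 ∧
    x ≠ ⟨0, 0, 2⟩ ∧ x * ⟨1, 1, 0⟩ ≠ ⟨1, 1, 0⟩ * x) := by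
  decide

theorem two_coset1 : ∀ x y : P 2, x ∈ K1' → x ∉ H' → y ∈ K1' → (y ∈ H' ∨ y * x⁻¹ ∈ H') := by
  decide

theorem two_coset2 : ∀ x y : P 2, x ∈ K2' → x ∉ H' → y ∈ K2' → (y ∈ H' ∨ y * x⁻¹ ∈ H') := by
  decide

theorem two_invol : ∀ x : P 2, x ∈ K2' → x ^ 2 = 1 → x = 1 ∨ x = ⟨0, 0, 2⟩ := by decide

theorem two_comm : ∀ x y : P 2, x ∈ K1' → y ∈ K1' → x * y = y * x := by decide

theorem XTwo_iff (K : Subgroup (P 2)) :
    (H' < K ∧ XTwo K ∧ H'.relIndex K = 2) ↔ (K = K1' ∨ K = K2') := by
  haveI : Finite (P 2) := inferInstance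
  have hi1 : H'.relIndex K1' = 2 := relIndex_eq_of_card H'_le_K1' card_H' (by rw [card_K1'])
  have hi2 : H'.relIndex K2' = 2 := relIndex_eq_of_card H'_le_K2' card_H' (by rw [card_K2'])
  have hlt : ∀ L : Subgroup (P 2), H' ≤ L → H'.relIndex L = 2 → H' < L := by
    intro L h1 h2
    refine lt_of_le_of_ne h1 fun h => ?_
    rw [h, Subgroup.relIndex_self] at h2
    omega
  constructor
  · rintro ⟨h1, ⟨hX1, hX2⟩, h3⟩
    obtain ⟨x, hx, hxH⟩ := Set.exists_of_ssubset h1
    rcases two_cover x hxH with hx1 | hx2 | ⟨hx3, hx4, hx5⟩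
    · left
      refine eq_of_relIndex two_ne_zero H'_le_K1' ?_ hi1 h3
      intro y hy
      rcases two_coset1 x y hx1 hxH hy with h | h
      · exact h1.le h
      · have := mul_mem (h1.le h) hx
        rwa [inv_mul_cancel_right] at this
    · right
      refine eq_of_relIndex two_ne_zero H'_le_K2' ?_ hi2 h3
      intro y hy
      rcases two_coset2 x y hx2 hxH hy with h | h
      · exact h1.le h
      · have := mul_mem (h1.le h) hx
        rwa [inv_mul_cancel_right] at this
    · exfalso
      have hh : (⟨1, 1, 0⟩ : P 2) ∈ K := h1.le (by decide)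
      have hz : (⟨0, 0, 2⟩ : P 2) ∈ K := h1.le (by decide)
      have hnc : ¬ ∀ a b : K, a * b = b * a := fun h =>
        hx5 (congrArg Subtype.val (h ⟨x, hx⟩ ⟨_, hh⟩))
      have hz2 : (⟨0, 0, 2⟩ : P 2) ^ 2 = 1 := by decide
      rcases hX2.resolve_left hnc ⟨x, hx⟩ ⟨_, hz⟩ (Subtype.ext hx3)
        (Subtype.ext hz2) with h | h | h
      · have h' : x = 1 := congrArg Subtype.val h
        exact hxH (h' ▸ one_mem H')
      · have h' : (⟨0, 0, 2⟩ : P 2) = 1 := congrArg Subtype.val h
        revert h'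
        decide
      · exact hx4 (congrArg Subtype.val h)
  · rintro (rfl | rfl)
    · refine ⟨hlt _ H'_le_K1' hi1, ⟨by rw [card_K1']; norm_num, Or.inl ?_⟩, hi1⟩
      rintro ⟨a, ha⟩ ⟨b, hb⟩
      exact Subtype.ext (two_comm a b ha hb)
    · refine ⟨hlt _ H'_le_K2' hi2, ⟨by rw [card_K2']; norm_num, Or.inr ?_⟩, hi2⟩
      rintro ⟨a, ha⟩ ⟨b, hb⟩ ha2 hb2
      rcases two_invol a ha (congrArg Subtype.val ha2) with h | h
      · left; exact Subtype.ext h
      · rcases two_invol b hb (congrArg Subtype.val hb2) with h' | h'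
        · right; left; exact Subtype.ext h'
        · right; right; exact Subtype.ext (h.trans h'.symm)

theorem K1'_ne_K2' : K1' ≠ K2' := by
  intro h
  have h1 : (⟨0, 0, 1⟩ : P 2) ∈ K1' := by decide
  rw [h] at h1
  revert h1
  decide

theorem two_count :
    Nat.card {K : Subgroup (P 2) // H' < K ∧ XTwo K ∧ H'.relIndex K = 2} = 2 := by
  have h1 : {K : Subgroup (P 2) | H' < K ∧ XTwo K ∧ H'.relIndex K = 2} = {K1', K2'} := by
    ext K
    rw [Set.mem_setOf_eq, XTwo_iff]
    simp
  have h2 : Nat.card ({K : Subgroup (P 2) | H' < K ∧ XTwo K ∧ H'.relIndex K = 2}) = 2 := by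
    rw [h1, Nat.card_coe_set_eq, Set.ncard_pair K1'_ne_K2']
  exact h2

theorem H'_mem_X : XTwo H' := by
  refine ⟨by rw [card_H']; norm_num, Or.inl ?_⟩
  rintro ⟨a, ha⟩ ⟨b, hb⟩
  exact Subtype.ext (two_comm a b ha.1 hb.1)

end Two

theorem finite_of_dvd {G : Type} [Group G] {n : ℕ} (hn : n ≠ 0) (h : Nat.card G ∣ n) : Finite G := by
  refine Nat.finite_of_card_ne_zero fun h0 => hn ?_
  rw [h0] at h
  exact zero_dvd_iff.1 h

/-- For every prime `p` there is an isomorphism-closed and subgroup-closed class `X` of finite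
groups such that in each finite `p`-group every maximal normal `X`-subgroup is a maximal
`X`-subgroup, while some finite `p`-group `G` has an `X`-subgroup `H` for which the number of
`X`-subgroups `K > H` with `|K : H| = p` is neither zero nor congruent to `1` modulo `p`. -/
theorem result (p : ℕ) (hp : p.Prime) :
    ∃ X : (G : Type) → [Group G] → Prop,
      (∀ (G : Type) [Group G], X G → Finite G) ∧
      (∀ (G K : Type) [Group G] [Group K], Nonempty (G ≃* K) → X G → X K) ∧
      (∀ (G : Type) [Group G], X G → ∀ K : Subgroup G, X K) ∧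
      (∀ (G : Type) [Group G] [Finite G], IsPGroup p G →
        ∀ N : Subgroup G, IsMaximalNormalX X N → IsMaximalX X N) ∧
      ∃ (G : Type) (_ : Group G), Finite G ∧ IsPGroup p G ∧
        ∃ H : Subgroup G, X H ∧ numAbove X p H ≠ 0 ∧ ¬ numAbove X p H ≡ 1 [MOD p] := by
  haveI := Fact.mk hp
  haveI : NeZero p := ⟨hp.ne_zero⟩
  have hcardP : IsPGroup p (P p) := IsPGroup.of_card (P.card p)
  by_cases hp2 : p = 2
  · subst hp2
    refine ⟨fun G _ => XTwo G, ?_, ?_, ?_, ?_, P 2, inferInstance, inferInstance, hcardP, H',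
      H'_mem_X, ?_, ?_⟩
    · intro G _ h
      exact finite_of_dvd (by norm_num) h.1
    · rintro G K _ _ ⟨e⟩ ⟨h1, h2⟩
      refine ⟨by rwa [← Nat.card_congr e.toEquiv], ?_⟩
      rcases h2 with h2 | h2
      · left
        intro a b
        apply e.symm.injective
        rw [map_mul, map_mul, h2]
      · right
        intro a b ha hb
        have h3 := h2 (e.symm a) (e.symm b) (by rw [← map_pow, ha, map_one])
          (by rw [← map_pow, hb, map_one])
        simpa using h3
    · rintro G _ ⟨h1, h2⟩ K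
      refine ⟨(Subgroup.card_subgroup_dvd_card K).trans h1, ?_⟩
      rcases h2 with h2 | h2
      · left
        intro a b
        exact Subtype.ext (h2 a b)
      · right
        intro a b ha hb
        have h3 := h2 a b (congrArg Subtype.val ha) (congrArg Subtype.val hb)
        rcases h3 with h3 | h3 | h3
        · left; exact Subtype.ext h3
        · right; left; exact Subtype.ext h3
        · right; right; exact Subtype.ext h3
    · intro G _ _ hG N hN
      refine ⟨hN.1.2, fun K hK hNK => ?_⟩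
      exact cond_one hp (fun G _ => XTwo G) (fun G _ _ h => h.1)
        (fun G _ _ h1 h2 => ⟨h1, Or.inl h2⟩) G hG N hN.1.1 hN.2 K hK hNK
    · rw [numAbove, two_count]; norm_num
    · rw [numAbove, two_count]; decide
  · refine ⟨fun G _ => XOdd p G, ?_, ?_, ?_, ?_, P p, inferInstance, inferInstance, hcardP, P.H p,
      H_mem_X hp, ?_, ?_⟩
    · intro G _ h
      exact finite_of_dvd (pow_ne_zero 3 hp.ne_zero) h.1
    · rintro G K _ _ ⟨e⟩ ⟨h1, h2⟩
      refine ⟨by rwa [← Nat.card_congr e.toEquiv], ?_⟩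
      rcases h2 with h2 | h2
      · left
        intro a b
        apply e.symm.injective
        rw [map_mul, map_mul, h2]
      · right
        intro a
        apply e.symm.injective
        rw [map_pow, h2, map_one]
    · rintro G _ ⟨h1, h2⟩ K
      refine ⟨(Subgroup.card_subgroup_dvd_card K).trans h1, ?_⟩
      rcases h2 with h2 | h2
      · left
        intro a b
        exact Subtype.ext (h2 a b)
      · right
        intro a
        exact Subtype.ext (h2 a)
    · intro G _ _ hG N hN
      refine ⟨hN.1.2, fun K hK hNK => ?_⟩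
      exact cond_one hp (fun G _ => XOdd p G) (fun G _ _ h => h.1)
        (fun G _ _ h1 h2 => ⟨h1, Or.inl h2⟩) G hG N hN.1.1 hN.2 K hK hNK
    · rw [numAbove, odd_count hp hp2]; norm_num
    · rw [numAbove, odd_count hp hp2]
      intro h
      have h1 := (Nat.modEq_iff_dvd' (by norm_num : 1 ≤ 2)).1 h.symm
      exact hp.one_lt.ne' (Nat.dvd_one.1 (show p ∣ 1 from h1))

end Pool.Agent.Results.MP_b62331_al.AbelianPlusOneType
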